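import Pool.Agent.Q106.FL.Tup
import Pool.Agent.Q120.GM.Exists

/-!
# MP_3a3367_nt: the functional law for the primes and tuples between consecutive odd squares, in the sieved models

The sieved model of level `Q`: a random set `A` which contains the integers `n ≥ 2` coprime to `Q` independently with
probability `(Q / φ(Q)) / log n` (at most `1`), and no others (`IsModel μ (level Q) A`; `Q = 1` is Cramér's model).
For a finite number of tuples `H` (primes: `H = {0}`, twins: `H = {0, 2}`) the paths `t ↦` normalized deviation of the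
number of the `m` in the first part (proportion `t`) of the window with all `m + h` in `A` satisfy a functional law:
their limit set is exactly Strassen's ball (`∑ ∫ g_i² ≤ 1`), and the number of the `n ≤ x` with a path near a function of
energy `e < 1` is `x^(1 - e + o(1))`. The windows are general; the windows of the question, the integers strictly
between consecutive odd squares, are an instance, for all families of tuples at once.
-/

set_option autoImplicit false

namespace Pool.Agent.Results.MP_3a3367_nt.FunctionalLaw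

open Finset MeasureTheory ProbabilityTheory Filter
open scoped Topology
open Pool.Agent.Q120.GM (IsModel level)
open Pool.Agent.Q106.FL (series path Data FLaw tup_law)

/-- The first element of `I_k`. -/
def left (k : ℕ) : ℕ := (2 * k - 1) ^ 2 + 1

/-- The end of `I_k`: `I_k` consists of the `m` with `left k ≤ m < right k`. -/
def right (k : ℕ) : ℕ := (2 * k + 1) ^ 2

theorem mem_window {k : ℕ} (hk : 1 ≤ k) (m : ℕ) :
    (left k ≤ m ∧ m < right k) ↔ (2 * (k : ℤ) - 1) ^ 2 < m ∧ (m : ℤ) < (2 * k + 1) ^ 2 := by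
  obtain ⟨j, rfl⟩ : ∃ j, k = j + 1 := ⟨k - 1, by omega⟩
  unfold left right
  have e1 : 2 * (j + 1) - 1 = 2 * j + 1 := by omega
  rw [e1]
  push_cast
  constructor
  · rintro ⟨h1, h2⟩
    have h1' : ((2 * j + 1 : ℤ)) ^ 2 + 1 ≤ m := by exact_mod_cast h1
    have h2' : (m : ℤ) < (2 * (j + 1) + 1) ^ 2 := by exact_mod_cast h2
    constructor
    · nlinarith
    · linarith
  · rintro ⟨h1, h2⟩
    have h1' : ((2 * j + 1 : ℤ)) ^ 2 + 1 ≤ m := by nlinarith
    constructor
    · exact_mod_cast h1'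
    · exact_mod_cast h2

theorem clock_of {a b : ℕ → ℕ} {C : ℕ} (hC : 1 ≤ C) (ha : Tendsto (fun n => (a n : ℝ)) atTop atTop)
    (h : ∀ᶠ n in atTop, 3 ≤ a n ∧ a n ≤ b n ∧ b n ≤ C * a n) :
    Tendsto (fun n => Real.log (b n) / Real.log (a n)) atTop (𝓝 1) := by
  have hl : Tendsto (fun n => Real.log (a n : ℝ)) atTop atTop := Real.tendsto_log_atTop.comp ha
  have h1 : Tendsto (fun n => 1 + Real.log C / Real.log (a n : ℝ)) atTop (𝓝 1) := by
    have := (tendsto_const_nhds (x := (1 : ℝ))).add (hl.const_div_atTop (Real.log C))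
    simpa using this
  have hC0 : (0 : ℝ) < C := by exact_mod_cast hC
  refine tendsto_of_tendsto_of_tendsto_of_le_of_le' tendsto_const_nhds h1 ?_ ?_
  · filter_upwards [h] with n hn
    have ha1 : (1 : ℝ) < (a n : ℝ) := by exact_mod_cast (show 1 < a n by omega)
    rw [one_le_div (Real.log_pos ha1)]
    exact Real.log_le_log (by linarith) (by exact_mod_cast hn.2.1)
  · filter_upwards [h] with n hn
    have ha1 : (1 : ℝ) < (a n : ℝ) := by exact_mod_cast (show 1 < a n by omega)
    have hla := Real.log_pos ha1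
    rw [div_le_iff₀ hla]
    have e1 : Real.log (b n) ≤ Real.log (C * a n) :=
      Real.log_le_log (by exact_mod_cast (show 0 < b n by omega)) (by exact_mod_cast hn.2.2)
    rw [Real.log_mul hC0.ne' (by linarith)] at e1
    have e2 : (1 + Real.log C / Real.log (a n : ℝ)) * Real.log (a n : ℝ) = Real.log (a n) + Real.log C := by
      field_simp
    linarith

/-- The data of the question. -/
theorem odd_data {Q r : ℕ} {H : Fin r → Finset ℕ} (hinj : Function.Injective H)
    (hH : ∀ i, 0 ∈ H i ∧ 0 < series Q (H i)) : ∃ k₀ N M, Data Q k₀ H (fun n _ => left n) (fun n _ => right n) N M (1 / 4) := by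
  obtain ⟨W, hW⟩ : ∃ W : ℕ, ∀ i, ∀ h ∈ H i, h ≤ W := by
    refine ⟨univ.sup (fun i => (H i).sup id), fun i h hh => ?_⟩
    exact (le_sup (f := id) hh).trans (le_sup (f := fun i => (H i).sup id) (mem_univ i))
  have hlr : ∀ k : ℕ, 1 ≤ k → left k + (8 * k - 1) = right k := by
    intro k hk
    obtain ⟨j, rfl⟩ : ∃ j, k = j + 1 := ⟨k - 1, by omega⟩
    unfold left right
    have e1 : 2 * (j + 1) - 1 = 2 * j + 1 := by omega
    have e2 : 8 * (j + 1) - 1 = 8 * j + 7 := by omega
    rw [e1, e2]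
    ring
  have hdist : ∀ k k' : ℕ, 1 ≤ k → k < k' → right k ≤ left k' := by
    intro k k' hk hkk
    unfold left right
    have e1 : 2 * k + 1 ≤ 2 * k' - 1 := by omega
    have := Nat.pow_le_pow_left e1 2
    omega
  have hleft : ∀ k : ℕ, 1 ≤ k → k ≤ left k := by
    intro k hk
    unfold left
    have e1 : k ≤ 2 * k - 1 := by omega
    have e2 : (2 * k - 1) ≤ (2 * k - 1) ^ 2 := Nat.le_self_pow (by norm_num) _
    omega
  have hlen : ∀ k : ℕ, 1 ≤ k → (right k : ℝ) - left k = 8 * k - 1 := by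
    intro k hk
    have h1 := hlr k hk
    have h2 : (left k : ℝ) + ((8 * k - 1 : ℕ) : ℝ) = right k := by exact_mod_cast h1
    rw [Nat.cast_sub (by omega)] at h2
    push_cast at h2
    linarith
  have hN10 : ∀ k : ℕ, W + 2 ≤ k → (2 * k + 1) ^ 2 + W ≤ 10 * k ^ 2 := by
    intro k hk
    nlinarith
  refine ⟨W + 2, fun k => (2 * k + 1) ^ 2 + W, fun k => 7 * k, ?_⟩
  refine ⟨by norm_num, fun i => (hH i).1, fun i => (hH i).2, ?_, ?_, ?_, ?_, ?_, ?_, ?_, ?_, ?_⟩
  · intro n hn n' hn' i i' he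
    rcases lt_trichotomy n n' with h | h | h
    · right
      rw [Finset.disjoint_left]
      intro m hm hm'
      rw [mem_Ico] at hm hm'
      have := hdist n n' (by omega) h
      omega
    · exact Or.inl ⟨h, hinj he⟩
    · right
      rw [Finset.disjoint_left]
      intro m hm hm'
      rw [mem_Ico] at hm hm'
      have := hdist n' n (by omega) h
      omega
  · intro n hn
    nlinarith
  · intro n hn i h hh
    have := hW i h hh
    unfold right
    omega
  · intro n hn i
    constructor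
    · have e1 : 3 ≤ 2 * n - 1 := by omega
      have := Nat.pow_le_pow_left e1 2
      unfold left
      omega
    · have := hlr n (by omega)
      omega
  · intro n hn
    have hn2 : (2 : ℝ) ≤ n := by exact_mod_cast (show 2 ≤ n by omega)
    have h1 : ((((2 * n + 1) ^ 2 + W : ℕ)) : ℝ) ≤ (7 * (n : ℝ)) ^ 4 := by
      have h2 : ((((2 * n + 1) ^ 2 + W : ℕ)) : ℝ) ≤ 10 * (n : ℝ) ^ 2 := by exact_mod_cast hN10 n hn
      have h3 : 1 ≤ (n : ℝ) ^ 2 := by nlinarith
      nlinarith [sq_nonneg ((n : ℝ) ^ 2)]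
    calc ((((2 * n + 1) ^ 2 + W : ℕ)) : ℝ) ^ (1 / 4 : ℝ) ≤ ((7 * (n : ℝ)) ^ 4) ^ (1 / 4 : ℝ) :=
          Real.rpow_le_rpow (Nat.cast_nonneg _) h1 (by norm_num)
      _ = 7 * n := by
          rw [← Real.rpow_natCast, ← Real.rpow_mul (by positivity)]
          norm_num
  · intro n hn i
    rw [hlen n (by omega)]
    have hn2 : (2 : ℝ) ≤ n := by exact_mod_cast (show 2 ≤ n by omega)
    linarith
  · intro n hn i
    rw [hlen n (by omega)]
    have hn2 : (2 : ℝ) ≤ n := by exact_mod_cast (show 2 ≤ n by omega)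
    have e1 : (7 * (n : ℝ)) ^ (3 / 2 - 1 / 4 : ℝ) = 7 * n * (7 * (n : ℝ)) ^ (1 / 4 : ℝ) := by
      rw [show (3 / 2 - 1 / 4 : ℝ) = 1 + 1 / 4 by norm_num, Real.rpow_add (by positivity), Real.rpow_one]
    have e2 : (8 / 7 : ℝ) ≤ (7 * (n : ℝ)) ^ (1 / 4 : ℝ) := by
      calc (8 / 7 : ℝ) = ((8 / 7 : ℝ) ^ 4) ^ (1 / 4 : ℝ) := by
            rw [← Real.rpow_natCast, ← Real.rpow_mul (by norm_num)]
            norm_num
        _ ≤ _ := Real.rpow_le_rpow (by norm_num) (by nlinarith) (by norm_num)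
    rw [e1]
    nlinarith
  · intro i
    refine clock_of (C := 8) (by norm_num) ?_ ?_
    · refine tendsto_atTop_mono' atTop ?_ tendsto_natCast_atTop_atTop
      filter_upwards [eventually_ge_atTop 1] with n hn
      exact_mod_cast hleft n hn
    · filter_upwards [eventually_ge_atTop 2] with n hn
      have h1 := hlr n (by omega)
      have h2 : 3 ≤ left n := by
        have e1 : 3 ≤ 2 * n - 1 := by omega
        have := Nat.pow_le_pow_left e1 2
        unfold left
        omega
      have h3 : 2 * (2 * n - 1) ≤ left n := by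
        unfold left
        have e1 : 2 ≤ 2 * n - 1 := by omega
        nlinarith
      refine ⟨h2, by omega, by omega⟩
  · refine ⟨3, ?_⟩
    filter_upwards [eventually_ge_atTop (W + 10)] with n hn
    have hn2 : (10 : ℝ) ≤ n := by exact_mod_cast (show 10 ≤ n by omega)
    have h2 : ((((2 * n + 1) ^ 2 + W : ℕ)) : ℝ) ≤ 10 * (n : ℝ) ^ 2 := by exact_mod_cast hN10 n (by omega)
    have h3 := Real.log_le_self (x := ((((2 * n + 1) ^ 2 + W : ℕ)) : ℝ)) (Nat.cast_nonneg _)
    have h4 : (n : ℝ) ^ (3 : ℝ) = (n : ℝ) ^ 2 * n := by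
      rw [show (3 : ℝ) = ((3 : ℕ) : ℝ) by norm_num, Real.rpow_natCast]
      ring
    rw [h4]
    nlinarith [sq_nonneg (n : ℝ)]

/-- **Result.** The models exist; for EVERY admissible family of tuples and windows the functional law holds almost surely;
almost surely it holds for the windows `I_k` and ALL finite families of tuples. -/
theorem result (Q : ℕ) (hQ : 1 ≤ Q) :
    (∃ (Ω : Type) (_ : MeasurableSpace Ω) (μ : Measure Ω) (_ : IsProbabilityMeasure μ) (A : Ω → Set ℕ),
      IsModel μ (level Q) A) ∧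
    (∀ k : ℕ, 1 ≤ k → ∀ m : ℕ, (left k ≤ m ∧ m < right k) ↔ (2 * (k : ℤ) - 1) ^ 2 < m ∧ (m : ℤ) < (2 * k + 1) ^ 2) ∧
    ∀ (Ω : Type) (_ : MeasurableSpace Ω) (μ : Measure Ω) (_ : IsProbabilityMeasure μ) (A : Ω → Set ℕ),
      IsModel μ (level Q) A →
      (∀ᵐ ω ∂μ, ∀ (r : ℕ) (H : Fin r → Finset ℕ), 1 ≤ r → Function.Injective H →
        (∀ i, 0 ∈ H i ∧ 0 < series Q (H i)) → FLaw (fun n i => path (A ω) Q (H i) left right n)) ∧
      ∀ (r : ℕ), 1 ≤ r → ∀ (k₀ : ℕ) (H : Fin r → Finset ℕ) (a b : ℕ → Fin r → ℕ) (N : ℕ → ℕ) (M : ℕ → ℝ) (δ : ℝ),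
        Data Q k₀ H a b N M δ →
        ∀ᵐ ω ∂μ, FLaw (fun n i => path (A ω) Q (H i) (fun n => a n i) (fun n => b n i) n) := by
  refine ⟨⟨ℕ → Bool, inferInstance, Pool.Agent.Q120.GM.prodMeasure (level Q), inferInstance,
    Pool.Agent.Q120.GM.trueSet, Pool.Agent.Q120.GM.isModel (level Q) (fun n => Pool.Agent.Q120.GM.level_nonneg Q n)
      (fun n => Pool.Agent.Q120.GM.level_le_one Q n)⟩, fun k hk m => mem_window hk m, ?_⟩
  intro Ω _ μ _ A hA
  constructor
  · refine ae_all_iff.2 (fun r => ae_all_iff.2 (fun H => ?_))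
    by_cases h : 1 ≤ r ∧ Function.Injective H ∧ ∀ i, 0 ∈ H i ∧ 0 < series Q (H i)
    · obtain ⟨k₀, N, M, hD⟩ := odd_data h.2.1 h.2.2
      filter_upwards [tup_law hQ hA h.1 hD] with ω hω _ _ _
      exact hω
    · exact Eventually.of_forall (fun ω h1 h2 h3 => absurd ⟨h1, h2, h3⟩ h)
  · intro r hr k₀ H a b N M δ hD
    exact tup_law hQ hA hr hD

end Pool.Agent.Results.MP_3a3367_nt.FunctionalLaw
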