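import Pool.Agent.Q166.SqJ

/-!
# Cramér's model between powers: no exponent is exceptional

In Cramér's random model of the primes let `N` be the number of elements strictly between `m ^ θ` and
`(m + q) ^ θ`, and `M` the sum of `1 / log n` over the integers there. Outside ONE set of probability zero,
for EVERY real `θ > 1`, all `q ≥ 1` and all residue classes `r` modulo `q`, the set of limit points of
`(N - M) / sqrt (2 q m ^ (θ - 1))`, as `m` runs through the residue class, is exactly `[-1, 1]`; both the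
upper bound and the recurrence (every value of `[-1, 1]` is approached in each dyadic block) are uniform
for `θ` in compact subsets of `(1, ∞)`. For `q = θ = 2` these are the intervals between consecutive odd
squares: their numbers of elements are `4 k / log (2 k) + O(sqrt k)`, with limit set `[-1, 1]` after
division of the error by `sqrt (8 k)`.
-/

set_option autoImplicit false

namespace Pool.Agent.Results.MP_3a3367_nt.NoExceptionalPower

open Finset MeasureTheory Filter Pool.Agent.Q120.MF Pool.Agent.Q166.Sq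

/-- the set of limit points of the sequence (`±∞` included) is exactly `[-1, 1]` -/
def Fills (u : ℕ → ℝ) : Prop :=
  (∀ ε : ℝ, 0 < ε → ∀ᶠ k in atTop, |u k| ≤ 1 + ε) ∧
    ∀ c : ℝ, |c| ≤ 1 → ∀ ε : ℝ, 0 < ε → ∃ᶠ k in atTop, |u k - c| ≤ ε

theorem fills_of {u v : ℕ → ℝ} (hu : Fills u) (h : Tendsto (fun k => v k - u k) atTop (nhds 0)) : Fills v := by
  constructor
  · intro ε hε
    filter_upwards [hu.1 (ε / 2) (by positivity), (tendsto_order.1 h).2 (ε / 2) (by positivity),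
      (tendsto_order.1 h).1 (-(ε / 2)) (by linarith)] with k h1 h2 h3
    rw [abs_le] at h1 ⊢
    constructor <;> linarith [h1.1, h1.2]
  · intro c hc ε hε
    refine ((hu.2 c hc (ε / 2) (by positivity)).and_eventually (((tendsto_order.1 h).2 (ε / 2) (by positivity)).and
      ((tendsto_order.1 h).1 (-(ε / 2)) (by linarith)))).mono ?_
    rintro k ⟨h1, h2, h3⟩
    rw [abs_le] at h1 ⊢
    constructor <;> linarith [h1.1, h1.2]

theorem tendsto_lin {q : ℕ} (r : ℕ) (hq : 1 ≤ q) : Tendsto (fun k : ℕ => q * k + r) atTop atTop :=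
  tendsto_atTop_mono (fun k => by
    show k ≤ q * k + r
    have : 1 * k ≤ q * k := Nat.mul_le_mul_right k hq
    omega) tendsto_id

/-- the terms of the sum near the square of an even number -/
theorem log_near {k n : ℕ} (hk : 2 ≤ k) (h1 : ((2 * k - 1 : ℝ)) ^ 2 < n) (h2 : (n : ℝ) < (2 * k + 1 : ℝ) ^ 2) :
    |1 / Real.log n - 1 / (2 * Real.log (2 * k))| ≤ 2 / k := by
  have hk2 : (2 : ℝ) ≤ k := by exact_mod_cast hk
  have hk0 : (0 : ℝ) < k := by linarith
  have hn9 : (9 : ℝ) ≤ n := by nlinarith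
  have hn0 : (0 : ℝ) < n := by linarith
  have hln : 1 ≤ Real.log n := by
    rw [Real.le_log_iff_exp_le hn0]
    linarith [Real.exp_one_lt_d9]
  have hlk : 1 ≤ Real.log (2 * k) := by
    rw [Real.le_log_iff_exp_le (by positivity)]
    linarith [Real.exp_one_lt_d9]
  have e3 : Real.log n - 2 * Real.log (2 * k) = Real.log ((n : ℝ) / (2 * k) ^ 2) := by
    rw [Real.log_div hn0.ne' (by positivity), Real.log_pow]
    push_cast
    ring
  have e4 : |Real.log n - 2 * Real.log (2 * k)| ≤ 2 / k := by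
    rw [e3, abs_le]
    have hp : 0 < (n : ℝ) / (2 * k) ^ 2 := by positivity
    constructor
    · have e5 := Real.one_sub_inv_le_log_of_pos hp
      refine le_trans ?_ e5
      rw [inv_div]
      have e6 : ((2 : ℝ) * k) ^ 2 / n ≤ 1 + 2 / k := by
        rw [div_le_iff₀ hn0]
        have e7 : (1 + 2 / (k : ℝ)) * (2 * k - 1) ^ 2 ≤ (1 + 2 / (k : ℝ)) * n :=
          mul_le_mul_of_nonneg_left h1.le (by positivity)
        have e8 : (2 * (k : ℝ)) ^ 2 ≤ (1 + 2 / (k : ℝ)) * (2 * k - 1) ^ 2 := by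
          have e9 : (1 + 2 / (k : ℝ)) * (2 * k - 1) ^ 2 = ((k + 2) * (2 * k - 1) ^ 2) / k := by
            field_simp
          rw [e9, le_div_iff₀ hk0]
          nlinarith
        linarith
      linarith
    · have e5 := Real.log_le_sub_one_of_pos hp
      refine e5.trans ?_
      have e6 : (n : ℝ) / (2 * k) ^ 2 ≤ 1 + 2 / k := by
        rw [div_le_iff₀ (by positivity)]
        have e9 : (1 + 2 / (k : ℝ)) * (2 * k) ^ 2 = 4 * k ^ 2 + 8 * k := by
          field_simp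
          ring
        rw [e9]
        nlinarith
      linarith
  have e5 : 1 / Real.log n - 1 / (2 * Real.log (2 * k)) =
      -(Real.log n - 2 * Real.log (2 * k)) / (Real.log n * (2 * Real.log (2 * k))) := by
    field_simp
    ring
  rw [e5, abs_div, abs_neg, abs_of_pos (show 0 < Real.log n * (2 * Real.log (2 * k)) by positivity)]
  refine (div_le_self (abs_nonneg _) ?_).trans e4
  nlinarith

/-- the mean between consecutive odd squares -/
theorem mean_near {k : ℕ} (hk : 2 ≤ k) :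
    |mean ((2 * k - 1 : ℝ) ^ 2) ((2 * k + 1 : ℝ) ^ 2) - 4 * k / Real.log (2 * k)| ≤ 17 := by
  have hk2 : (2 : ℝ) ≤ k := by exact_mod_cast hk
  have hk0 : (0 : ℝ) < k := by linarith
  have hlk : 1 ≤ Real.log (2 * k) := by
    rw [Real.le_log_iff_exp_le (by positivity)]
    linarith [Real.exp_one_lt_d9]
  have hset : (range ⌈(2 * k + 1 : ℝ) ^ 2⌉₊).filter (fun n : ℕ => (2 * k - 1 : ℝ) ^ 2 < n) =
      Ioo ((2 * k - 1) ^ 2) ((2 * k + 1) ^ 2) := by
    ext n
    rw [mem_filter, mem_range, Nat.lt_ceil, mem_Ioo]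
    have e1 : ((2 * k - 1 : ℝ)) ^ 2 = (((2 * k - 1) ^ 2 : ℕ) : ℝ) := by
      rw [Nat.cast_pow, Nat.cast_sub (by omega)]
      push_cast
      ring
    have e2 : ((2 * k + 1 : ℝ)) ^ 2 = (((2 * k + 1) ^ 2 : ℕ) : ℝ) := by
      push_cast
      ring
    rw [e1, e2, Nat.cast_lt, Nat.cast_lt]
    tauto
  have hcard : ((Ioo ((2 * k - 1) ^ 2) ((2 * k + 1) ^ 2)).card : ℝ) = 8 * k - 1 := by
    rw [Nat.card_Ioo]
    have h1 : (2 * k + 1) ^ 2 = (2 * k - 1) ^ 2 + 8 * k := by
      obtain ⟨j, rfl⟩ : ∃ j, k = j + 1 := ⟨k - 1, by omega⟩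
      have : 2 * (j + 1) - 1 = 2 * j + 1 := by omega
      rw [this]
      ring
    rw [h1, Nat.add_sub_cancel_left, Nat.cast_sub (by omega)]
    push_cast
    ring
  unfold mean
  have h1 : ∀ n ∈ (range ⌈(2 * k + 1 : ℝ) ^ 2⌉₊).filter (fun n : ℕ => (2 * k - 1 : ℝ) ^ 2 < n),
      |1 / Real.log (n : ℝ) - 1 / (2 * Real.log (2 * k))| ≤ 2 / k := by
    intro n hn
    rw [mem_filter, mem_range, Nat.lt_ceil] at hn
    exact log_near hk hn.2 hn.1
  have h2 := (abs_sum_le_sum_abs _ _).trans (sum_le_sum h1)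
  rw [sum_sub_distrib, sum_const, sum_const, nsmul_eq_mul, nsmul_eq_mul, hset, hcard] at h2
  rw [hset]
  have h3 : (8 * (k : ℝ) - 1) * (2 / k) ≤ 16 := by
    have : (8 * (k : ℝ) - 1) * (2 / k) = 16 - 2 / k := by
      field_simp
      ring
    rw [this]
    have : 0 < 2 / (k : ℝ) := by positivity
    linarith
  have h4 : (8 * (k : ℝ) - 1) * (1 / (2 * Real.log (2 * k))) = 4 * k / Real.log (2 * k) - 1 / (2 * Real.log (2 * k)) := by
    field_simp
    ring
  have h5 : 0 ≤ 1 / (2 * Real.log (2 * k)) := by positivity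
  have h6 : 1 / (2 * Real.log (2 * k)) ≤ 1 := by
    rw [div_le_one (by positivity)]
    linarith
  rw [h4] at h2
  rw [abs_le] at h2 ⊢
  constructor <;> linarith [h2.1, h2.2]

/-- **In Cramér's model no exponent is exceptional.** -/
theorem result :
    (∃ (Ω : Type) (_ : MeasurableSpace Ω) (μ : Measure Ω) (A : Ω → Set ℕ), IsProbabilityMeasure μ ∧ IsCramer μ A) ∧
    ∀ (Ω : Type) [MeasurableSpace Ω] (μ : Measure Ω) [IsProbabilityMeasure μ] (A : Ω → Set ℕ), IsCramer μ A →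
      ∀ᵐ ω ∂μ,
        -- (1) one null set for all real exponents, all distances and all residue classes
        (∀ θ : ℝ, 1 < θ → ∀ q r : ℕ, 1 ≤ q → Fills fun k : ℕ => dev (A ω) q θ (q * k + r)) ∧
        -- (2) the upper bound, uniformly in the exponent
        (∀ a b : ℝ, 1 < a → a ≤ b → ∀ q : ℕ, 1 ≤ q → ∀ ε : ℝ, 0 < ε →
          ∀ᶠ m : ℕ in atTop, ∀ θ : ℝ, a ≤ θ → θ ≤ b → |dev (A ω) q θ m| ≤ 1 + ε) ∧
        -- (3) the recurrence, uniformly in the exponent
        (∀ a b : ℝ, 1 < a → a ≤ b → ∀ q r : ℕ, 1 ≤ q → ∀ c : ℝ, |c| ≤ 1 → ∀ ε : ℝ, 0 < ε →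
          ∀ᶠ i : ℕ in atTop, ∀ θ : ℝ, a ≤ θ → θ ≤ b →
            ∃ m : ℕ, 2 ^ i ≤ m ∧ m < 2 ^ (i + 1) ∧ m % q = r % q ∧ |dev (A ω) q θ m - c| ≤ ε) ∧
        -- (4) consecutive odd squares
        Fills fun k : ℕ => (((A ω ∩ Set.Ioo ((2 * k - 1) ^ 2) ((2 * k + 1) ^ 2)).ncard : ℝ) -
          4 * k / Real.log (2 * k)) / √(8 * k) := by
  refine ⟨⟨_, _, cramerMeasure, cramerSet, inferInstance, isCramer⟩, ?_⟩
  intro Ω _ μ _ A hA
  filter_upwards [dev_upper hA, dev_lower hA] with ω hup hlow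
  have h1 : ∀ θ : ℝ, 1 < θ → ∀ q r : ℕ, 1 ≤ q → Fills fun k : ℕ => dev (A ω) q θ (q * k + r) := by
    intro θ hθ q r hq
    constructor
    · intro ε hε
      filter_upwards [(tendsto_lin r hq).eventually (hup θ θ hθ le_rfl q hq ε hε)] with k hk
      exact hk θ le_rfl le_rfl
    · intro c hc ε hε
      rw [frequently_atTop]
      intro N
      obtain ⟨i, hi1, hi2⟩ := ((hlow θ θ hθ le_rfl q r hq c hc ε hε).and
        (tendsto_two_pow.eventually (eventually_ge_atTop (q * N + r)))).exists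
      obtain ⟨m, hm1, _, hm3, hm4⟩ := hi1 θ le_rfl le_rfl
      have hrm : q * N + r ≤ m := hi2.trans hm1
      have hdvd : q ∣ m - r := (Nat.modEq_iff_dvd' (by omega)).1 hm3.symm
      obtain ⟨k, hk⟩ := hdvd
      have hmk : m = q * k + r := by omega
      refine ⟨k, ?_, ?_⟩
      · have : q * N ≤ q * k := by omega
        exact Nat.le_of_mul_le_mul_left this (by omega)
      · show |dev (A ω) q θ (q * k + r) - c| ≤ ε
        rw [← hmk]
        exact hm4
  refine ⟨h1, hup, hlow, ?_⟩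
  -- the odd squares
  have h2 := h1 2 (by norm_num) 2 1 (by norm_num)
  have h3 : Fills fun k : ℕ => dev (A ω) 2 2 (2 * (k + 1) - 1) := by
    have e : (fun k : ℕ => dev (A ω) 2 2 (2 * (k + 1) - 1)) = fun k : ℕ => dev (A ω) 2 2 (2 * k + 1) := by
      funext k
      congr 1
    rw [e]
    exact h2
  have h4 : Fills fun k : ℕ => dev (A ω) 2 2 (2 * k - 1) := by
    constructor
    · intro ε hε
      have := h3.1 ε hε
      rw [eventually_atTop] at this ⊢
      obtain ⟨N, hN⟩ := this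
      refine ⟨N + 1, fun k hk => ?_⟩
      obtain ⟨j, rfl⟩ : ∃ j, k = j + 1 := ⟨k - 1, by omega⟩
      exact hN j (by omega)
    · intro c hc ε hε
      have := h3.2 c hc ε hε
      rw [frequently_atTop] at this ⊢
      intro N
      obtain ⟨k, hk1, hk2⟩ := this N
      exact ⟨k + 1, by omega, hk2⟩
  refine fills_of h4 ?_
  -- the two normalizations
  have hrel : ∀ k : ℕ, 2 ≤ k → (((A ω ∩ Set.Ioo ((2 * k - 1) ^ 2) ((2 * k + 1) ^ 2)).ncard : ℝ) -
      4 * k / Real.log (2 * k)) = dev (A ω) 2 2 (2 * k - 1) * √(4 * (2 * k - 1)) +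
        (mean ((2 * k - 1 : ℝ) ^ 2) ((2 * k + 1 : ℝ) ^ 2) - 4 * k / Real.log (2 * k)) := by
    intro k hk
    have hk2 : (2 : ℝ) ≤ k := by exact_mod_cast hk
    have e1 : ((2 * k - 1 : ℕ) : ℝ) = 2 * k - 1 := by
      rw [Nat.cast_sub (by omega)]
      push_cast
      ring
    have e2 : ((2 : ℕ) : ℝ) = 2 := by norm_num
    have e3 : (2 * (k : ℝ) - 1) ^ ((2 : ℝ) - 1) = 2 * k - 1 := by
      norm_num
    have hset : (A ω ∩ {n : ℕ | (2 * (k : ℝ) - 1) ^ 2 < n ∧ (n : ℝ) < (2 * k + 1) ^ 2}) =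
        A ω ∩ Set.Ioo ((2 * k - 1) ^ 2) ((2 * k + 1) ^ 2) := by
      ext n
      rw [Set.mem_inter_iff, Set.mem_inter_iff, Set.mem_Ioo, Set.mem_ofPred_eq]
      have e1 : ((2 * k - 1 : ℝ)) ^ 2 = (((2 * k - 1) ^ 2 : ℕ) : ℝ) := by
        rw [Nat.cast_pow, Nat.cast_sub (by omega)]
        push_cast
        ring
      have e2 : ((2 * k + 1 : ℝ)) ^ 2 = (((2 * k + 1) ^ 2 : ℕ) : ℝ) := by
        push_cast
        ring
      rw [e1, e2, Nat.cast_lt, Nat.cast_lt]
    unfold dev cnt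
    rw [e1, e2, e3, show (2 * (k : ℝ) - 1 + 2) = 2 * k + 1 by ring, Real.rpow_two, Real.rpow_two, hset,
      show (2 : ℝ) * 2 * (2 * k - 1) = 4 * (2 * k - 1) by ring,
      div_mul_cancel₀ _ (Real.sqrt_pos.2 (by linarith)).ne']
    ring
  have hb := h4.1 1 one_pos
  have hdiff : ∀ᶠ k : ℕ in atTop, |(((A ω ∩ Set.Ioo ((2 * k - 1) ^ 2) ((2 * k + 1) ^ 2)).ncard : ℝ) -
      4 * k / Real.log (2 * k)) / √(8 * k) - dev (A ω) 2 2 (2 * k - 1)| ≤ 25 * (1 / √(k : ℝ)) := by
    filter_upwards [hb, eventually_ge_atTop 2] with k hk hk2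
    have hkR : (2 : ℝ) ≤ k := by exact_mod_cast hk2
    have hs8 : 0 < √(8 * (k : ℝ)) := Real.sqrt_pos.2 (by linarith)
    have hsk : 0 < √(k : ℝ) := Real.sqrt_pos.2 (by linarith)
    have hsk8 : √(k : ℝ) ≤ √(8 * (k : ℝ)) := Real.sqrt_le_sqrt (by linarith)
    rw [hrel k hk2]
    obtain ⟨D, hD⟩ : ∃ D : ℝ, D = dev (A ω) 2 2 (2 * k - 1) := ⟨_, rfl⟩
    obtain ⟨M, hM⟩ : ∃ M : ℝ, M = mean ((2 * k - 1 : ℝ) ^ 2) ((2 * k + 1 : ℝ) ^ 2) - 4 * k / Real.log (2 * k) :=
      ⟨_, rfl⟩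
    have hM17 : |M| ≤ 17 := by rw [hM]; exact mean_near hk2
    rw [← hD] at hk ⊢
    rw [← hM]
    have e1 : (D * √(4 * (2 * (k : ℝ) - 1)) + M) / √(8 * (k : ℝ)) - D =
        (D * (√(4 * (2 * (k : ℝ) - 1)) - √(8 * (k : ℝ))) + M) / √(8 * (k : ℝ)) := by
      field_simp
      ring
    rw [e1, abs_div, abs_of_pos hs8, div_le_iff₀ hs8]
    have e2 : |√(4 * (2 * (k : ℝ) - 1)) - √(8 * (k : ℝ))| ≤ 4 := by
      have e21 : √(4 * (2 * (k : ℝ) - 1)) ≤ √(8 * (k : ℝ)) := Real.sqrt_le_sqrt (by linarith)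
      have e22 : √(8 * (k : ℝ)) ≤ √(4 * (2 * (k : ℝ) - 1)) + 4 := by
        rw [Real.sqrt_le_iff]
        refine ⟨by positivity, ?_⟩
        have e23 := Real.sq_sqrt (show 0 ≤ 4 * (2 * (k : ℝ) - 1) by linarith)
        have e24 := Real.sqrt_nonneg (4 * (2 * (k : ℝ) - 1))
        nlinarith
      rw [abs_le]
      constructor <;> linarith
    have e3 : |D * (√(4 * (2 * (k : ℝ) - 1)) - √(8 * (k : ℝ))) + M| ≤ 25 := by
      refine (abs_add_le _ _).trans ?_
      rw [abs_mul]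
      have : |D| * |√(4 * (2 * (k : ℝ) - 1)) - √(8 * (k : ℝ))| ≤ 2 * 4 :=
        mul_le_mul (by linarith) e2 (abs_nonneg _) (by norm_num)
      linarith
    refine e3.trans ?_
    have e4 : 1 ≤ 1 / √(k : ℝ) * √(8 * (k : ℝ)) := by
      rw [div_mul_eq_mul_div, one_mul, le_div_iff₀ hsk, one_mul]
      exact hsk8
    linarith
  have hlim : Tendsto (fun k : ℕ => 25 * (1 / √(k : ℝ))) atTop (nhds 0) := by
    have e1 : Tendsto (fun k : ℕ => √(k : ℝ)) atTop atTop := Real.tendsto_sqrt_atTop.comp tendsto_natCast_atTop_atTop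
    have e2 := (e1.inv_tendsto_atTop).const_mul (25 : ℝ)
    rw [mul_zero] at e2
    refine e2.congr fun k => ?_
    simp
  exact squeeze_zero_norm' hdiff hlim

end Pool.Agent.Results.MP_3a3367_nt.NoExceptionalPower
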