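import Pool.Agent.Q197.SP.R3a3

/-!
# Elements between consecutive odd squares: the exact entropy price of every deviation, for all random sets
-/

set_option autoImplicit false

namespace Pool.Agent.Results.MP_3a3367_nt.PriceOfDeviations

open Finset Filter Pool.Agent.Q197.WN Pool.Agent.Q120.CL Pool.Agent.Q120.HL Pool.Agent.Q120.ET Pool.Agent.Q197.SP.R3a3
open scoped Topology

theorem result (z : ℕ → ℕ) (hs : ∀ η : ℝ, 0 < η → ∀ᶠ k : ℕ in atTop, (z k : ℝ) ≤ η * k) :
    Low (pr z) W Q E ∧ High (pr z) W Q E := by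
  exact (all_parts z hs).2

end Pool.Agent.Results.MP_3a3367_nt.PriceOfDeviations
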